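import Mathlib

/-!
# MP_41caf5_nt, Q1: the negatives of fourth powers are counterexamples

If `-c ^ 4` is a primitive root modulo a prime `p`, then so is `-c ^ 2`.  Hence for `c ≥ 2` the
integer `-c ^ 4` is never the largest negative primitive root modulo a prime.  For a prime `q` the
integer `-q ^ 4` (for example `-16`) is not a perfect power, so Q1 is false.
-/

namespace Pool.Agent.Results.MP_41caf5_nt.MinusFourthPowers

/-- `a` is a perfect power: `a = x ^ m` for some integers `x` and `m > 1`. -/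
def IsPerfectPower (a : ℤ) : Prop := ∃ (x : ℤ) (m : ℕ), 1 < m ∧ a = x ^ m

/-- `g` is a primitive root modulo `p`: `p` does not divide `g`, and the residue class of `g`
generates the group of units of `ℤ/pℤ`. -/
def IsPrimRoot (g : ℤ) (p : ℕ) : Prop :=
  ¬ (p : ℤ) ∣ g ∧
    ∃ u : (ZMod p)ˣ, (u : ZMod p) = (g : ZMod p) ∧ ∀ x : (ZMod p)ˣ, x ∈ Subgroup.zpowers u

/-- `a` is the largest negative primitive root modulo `p`. -/
def IsLargestNegPrimRoot (a : ℤ) (p : ℕ) : Prop :=
  IsPrimRoot a p ∧ ∀ b : ℤ, a < b → b < 0 → ¬ IsPrimRoot b p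

/-- The assertion of Q1. -/
def Q1 : Prop :=
  ∀ a : ℤ, a < 0 → ¬ IsPerfectPower a →
    {p : ℕ | p.Prime ∧ IsLargestNegPrimRoot a p}.Infinite

theorem key {p : ℕ} (hp : p.Prime) (c : ℤ) (h : IsPrimRoot (-c ^ 4) p) :
    IsPrimRoot (-c ^ 2) p := by
  have := Fact.mk hp
  obtain ⟨-, g, hg, hgen⟩ := h
  have hc : (c : ZMod p) ≠ 0 := by
    intro h0
    apply g.ne_zero
    rw [hg]
    push_cast
    rw [h0]
    simp
  have hdvd : ¬ (p : ℤ) ∣ -c ^ 2 := by
    intro h
    have h1 : (p : ℤ) ∣ c ^ 2 := (Int.dvd_neg).1 h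
    have h2 : (p : ℤ) ∣ c := Int.Prime.dvd_pow' hp h1
    exact hc ((ZMod.intCast_zmod_eq_zero_iff_dvd c p).2 h2)
  refine ⟨hdvd, ?_⟩
  obtain ⟨v, hv⟩ : ∃ v : (ZMod p)ˣ, (v : ZMod p) = (c : ZMod p) := ⟨Units.mk0 _ hc, rfl⟩
  have hgv : g = -v ^ 4 := by
    ext
    rw [hg]
    push_cast
    rw [hv]
  refine ⟨-v ^ 2, by push_cast; rw [hv], ?_⟩
  have hord : orderOf g = p - 1 := by
    rw [orderOf_eq_card_of_forall_mem_zpowers hgen, Nat.card_eq_fintype_card, ZMod.card_units]
  have hcard : ∀ x : (ZMod p)ˣ, x ^ (p - 1) = 1 := by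
    intro x
    exact ZMod.units_pow_card_sub_one_eq_one p x
  rcases hp.eq_two_or_odd' with h2 | hodd
  · intro x
    have : x = 1 := by
      have h3 := hcard x
      have h4 : p - 1 = 1 := by omega
      rw [h4, pow_one] at h3
      exact h3
    rw [this]
    exact Subgroup.one_mem _
  · obtain ⟨m, hm⟩ := hodd
    have hm0 : 0 < m := by
      have := hp.two_le
      rcases Nat.eq_zero_or_pos m with h | h
      · subst h; omega
      · exact h
    have hp1 : p - 1 = 2 * m := by omega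
    rw [hp1] at hord
    have hcard' : ∀ x : (ZMod p)ˣ, x ^ (2 * m) = 1 := by
      intro x; rw [← hp1]; exact hcard x
    have hmodd : Odd m := by
      by_contra hne
      have hev : Even m := Nat.not_odd_iff_even.1 hne
      have h1 : g ^ m = 1 := by
        rw [hgv, hev.neg_pow]
        have : (v ^ 4) ^ m = (v ^ (2 * m)) ^ 2 := by
          rw [← pow_mul, ← pow_mul]; ring_nf
        rw [this, hcard' v, one_pow]
      have h2 : orderOf g ∣ m := orderOf_dvd_of_pow_eq_one h1
      have h3 := Nat.le_of_dvd hm0 h2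
      omega
    have hh : (-v ^ 2) ^ m = -1 := by
      rw [hmodd.neg_pow]
      rw [← pow_mul, hcard' v]
    have hgm : g ∈ Subgroup.zpowers (-v ^ 2) := by
      have : g = (-v ^ 2) ^ (m + 2) := by
        rw [pow_add, hh, hgv]
        simp only [even_two, Even.neg_pow, ← pow_mul]
        simp
      rw [this]
      exact Subgroup.pow_mem _ (Subgroup.mem_zpowers _) _
    intro x
    have := hgen x
    exact (Subgroup.zpowers_le.2 hgm) this

theorem not_isLargest {p : ℕ} (hp : p.Prime) {c : ℤ} (hc : 2 ≤ c) :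
    ¬ IsLargestNegPrimRoot (-c ^ 4) p := by
  rintro ⟨h1, h2⟩
  refine h2 (-c ^ 2) ?_ ?_ (key hp c h1)
  · have hy : 4 ≤ c ^ 2 := by nlinarith
    have h4 : c ^ 4 = c ^ 2 * c ^ 2 := by ring
    nlinarith
  · nlinarith

theorem not_perfectPower {q : ℕ} (hq : q.Prime) : ¬ IsPerfectPower (-(q : ℤ) ^ 4) := by
  rintro ⟨x, m, hm, h⟩
  have hx : x.natAbs ^ m = q ^ 4 := by
    have := congrArg Int.natAbs h
    rw [Int.natAbs_neg, Int.natAbs_pow, Int.natAbs_pow, Int.natAbs_natCast] at this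
    exact this.symm
  have hdvd : x.natAbs ∣ q ^ 4 := by
    rw [← hx]
    exact dvd_pow_self _ (by omega)
  obtain ⟨j, hj, hxj⟩ := (Nat.dvd_prime_pow hq).1 hdvd
  rw [hxj, ← pow_mul] at hx
  have hjm : j * m = 4 := Nat.pow_right_injective hq.two_le hx
  have hm4 : m ∣ 4 := ⟨j, by rw [mul_comm]; exact hjm.symm⟩
  have hqpos : (0 : ℤ) < (q : ℤ) ^ 4 := by
    have := hq.pos
    positivity
  have heven : Even m := by
    have hle : m ≤ 4 := Nat.le_of_dvd (by norm_num) hm4
    interval_cases m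
    · decide
    · omega
    · decide
  have : 0 ≤ x ^ m := heven.pow_nonneg x
  rw [← h] at this
  linarith

/-- Q1 is false: for every prime `q`, the negative integer `-q ^ 4` is not a perfect power, and it
is not the largest negative primitive root modulo any prime. -/
theorem result :
    (∀ q : ℕ, q.Prime → -(q : ℤ) ^ 4 < 0 ∧ ¬ IsPerfectPower (-(q : ℤ) ^ 4) ∧
      ∀ p : ℕ, p.Prime → ¬ IsLargestNegPrimRoot (-(q : ℤ) ^ 4) p) ∧ ¬ Q1 := by
  have hneg : ∀ q : ℕ, q.Prime → -(q : ℤ) ^ 4 < 0 := by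
    intro q hq
    have := hq.pos
    have h1 : (0 : ℤ) < (q : ℤ) ^ 4 := by positivity
    linarith
  have hlarge : ∀ q : ℕ, q.Prime → ∀ p : ℕ, p.Prime →
      ¬ IsLargestNegPrimRoot (-(q : ℤ) ^ 4) p := by
    intro q hq p hp
    exact not_isLargest hp (by exact_mod_cast hq.two_le)
  refine ⟨fun q hq => ⟨hneg q hq, not_perfectPower hq, hlarge q hq⟩, ?_⟩
  intro h
  have h1 := h _ (hneg 2 Nat.prime_two) (not_perfectPower Nat.prime_two)
  have hempty : {p : ℕ | p.Prime ∧ IsLargestNegPrimRoot (-((2 : ℕ) : ℤ) ^ 4) p} = ∅ := by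
    ext p
    simp only [Set.mem_ofPred_eq, Set.mem_empty_iff_false, iff_false, not_and]
    exact hlarge 2 Nat.prime_two p
  rw [hempty] at h1
  exact h1 Set.finite_empty

end Pool.Agent.Results.MP_41caf5_nt.MinusFourthPowers
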